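import Pool.Agent.helper34.FJ3.SdAsm

set_option autoImplicit false

/-!
# Groups acting on 2-dimensional CAT(0) complexes with infinite stabilisers

`FJClosed P` says that the class `P` of groups has inheritance properties which are known for the
class of Farrell-Jones groups. The theorem says that a group `G` which acts on a simply connected
non-positively curved 2-complex (no cocompactness, no local finiteness, arbitrary stabilisers) is in
`P` as soon as for every simplex there is a homomorphism from `G` to a group in `P` which is
injective on the stabiliser of the simplex.

Outline of the proof. Passing to the second barycentric subdivision one can assume that the action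
preserves types. By the extension property and colimits one can assume that the action is cocompact
and that there is a homomorphism `φ : G → ℤ` which is injective on all vertex stabilisers. For a
suitable `m` replace `G` by `φ⁻¹(m ℤ)`, and let `N` be the subgroup generated by all vertex
stabilisers. The angles of rotation are now so large that the quotient `X / N` is again simply
connected and non-positively curved, and `G / N` acts freely on it. A combinatorial version of the
gradient flow of the distance from a point of the CAT(0) space `X / N` shows that every finite
subcomplex of `X / N` collapses to a graph in a way which lifts to `X`, so that `N` is a colimit of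
groups acting on trees with stabilisers mapped injectively to `ℤ`. Such groups act properly on the
product of a tree and a line. The extension property for `G → G / N × ℤ` gives the theorem.
-/

namespace Pool.Agent.helper34.Variants.CatZeroInheritance

open Pool.Agent.helper34
open Pool.Agent.helper34.FJ2 (Complex2 SimplyConnected NPC ActsProperly Cocompact)

/-- A class of (discrete) groups with known properties of the class of Farrell-Jones groups: it
contains the groups acting properly and cocompactly on 2-dimensional CAT(0) simplicial complexes, it
is closed under subgroups, overgroups of finite index, direct products of two groups and colimits of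
directed systems with arbitrary structure maps, and it has the extension property. -/
structure FJClosed (P : ∀ (G : Type) [Group G], Prop) : Prop where
  /-- groups acting properly and cocompactly on 2-dimensional CAT(0) simplicial complexes: simply
  connected, piecewise Euclidean, with the link condition -/
  catZero : ∀ (G V : Type) [Group G] [MulAction G V] (X : Complex2 V) (len : V → V → ℝ),
    SimplyConnected X → NPC X len → ActsProperly G X len → Cocompact G X → P G
  /-- subgroups -/
  subgroup : ∀ (G : Type) [Group G], P G → ∀ H : Subgroup G, P H
  /-- overgroups of finite index -/
  overgroup : ∀ (G : Type) [Group G] (H : Subgroup G), H.FiniteIndex → P H → P G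
  /-- direct products -/
  product : ∀ (G H : Type) [Group G] [Group H], P G → P H → P (G × H)
  /-- directed colimits: `L` with the maps `φ i` is a colimit of the directed system `(G, f)` when
  the `φ i` are compatible with the `f i j`, jointly surjective, and an element of `G i` dies in
  `L` only if it dies in some `G j`. -/
  colim : ∀ (ι : Type) [Preorder ι] [Nonempty ι] [IsDirectedOrder ι]
    (G : ι → Type) [∀ i, Group (G i)] (f : ∀ i j, i ≤ j → G i →* G j)
    (L : Type) [Group L] (φ : ∀ i, G i →* L),
    (∀ i x, f i i le_rfl x = x) →
    (∀ i j k (hij : i ≤ j) (hjk : j ≤ k) x, f j k hjk (f i j hij x) = f i k (hij.trans hjk) x) →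
    (∀ i j (h : i ≤ j) x, φ j (f i j h x) = φ i x) →
    (∀ y : L, ∃ i x, φ i x = y) →
    (∀ i x, φ i x = 1 → ∃ j, ∃ h : i ≤ j, f i j h x = 1) →
    (∀ i, P (G i)) → P L
  /-- the extension property: if `Q` and the preimages of all virtually cyclic subgroups of `Q`
  are in the class, then the source of the homomorphism is in the class -/
  extension : ∀ (G Q : Type) [Group G] [Group Q] (f : G →* Q), P Q →
    (∀ C : Subgroup Q, (∃ Z : Subgroup C, Z.FiniteIndex ∧ IsCyclic Z) → P (C.comap f)) → P G

/-- the simplices of the complex `X` (vertices, edges, triangles), as sets of vertices -/
def IsSimplex {V : Type} (X : Complex2 V) (s : Set V) : Prop :=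
  (∃ a, s = {a}) ∨ (∃ a b, X.edge a b ∧ s = {a, b}) ∨ ∃ a b c, X.tri a b c ∧ s = {a, b, c}

/-- the group acts by automorphisms which preserve the lengths of the edges -/
structure ActsIsometrically (G : Type) {V : Type} [Group G] [MulAction G V] (X : Complex2 V)
    (len : V → V → ℝ) : Prop where
  edge : ∀ (g : G) (a b : V), X.edge a b → X.edge (g • a) (g • b)
  tri : ∀ (g : G) (a b c : V), X.tri a b c → X.tri (g • a) (g • b) (g • c)
  len : ∀ (g : G) (a b : V), X.edge a b → len (g • a) (g • b) = len a b

theorem closed {P : ∀ (G : Type) [Group G], Prop} (hP : FJClosed P) : FJ3.Closed P where
  cat := hP.catZero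
  colim := hP.colim
  sub := fun G _ H h => hP.subgroup G h H
  finIndex := fun G _ H hH h => hP.overgroup G H ⟨hH⟩ h
  prod := hP.product
  ext := by
    intro G Q _ _ ψ h hQ
    refine hP.extension G Q ψ hQ ?_
    rintro C ⟨Z, hZ, hc⟩
    obtain ⟨x, hx⟩ := hc.exists_generator
    refine h C ⟨((x : Z) : C), (x : C).2, ?_⟩
    have h1 : (Subgroup.zpowers (((x : Z) : C) : Q)).subgroupOf C = Z := by
      ext y
      rw [Subgroup.mem_subgroupOf]
      constructor
      · rintro ⟨j, hj⟩
        have h2 : y = ((x ^ j : Z) : C) := Subtype.ext (by simpa using hj.symm)
        rw [h2]
        exact (x ^ j).2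
      · intro hy
        obtain ⟨j, hj⟩ := hx ⟨y, hy⟩
        refine ⟨j, ?_⟩
        have h2 := congrArg (fun z : Z => ((z : C) : Q)) hj
        simpa using h2
    change ((Subgroup.zpowers (((x : Z) : C) : Q)).subgroupOf C).index ≠ 0
    rw [h1]
    exact hZ.index_ne_zero

/-- Let `P` be a class of groups with the properties `FJClosed` of the class of Farrell-Jones
groups. Let `G` act isometrically on a simply connected 2-complex `X` of non-positive curvature such
that for every simplex `s` there is a homomorphism from `G` to a group in `P` which is injective on
the stabiliser of `s`. Then `G` is in `P`. -/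
theorem result (P : ∀ (G : Type) [Group G], Prop) (hP : FJClosed P) (G V : Type) [Group G]
    [MulAction G V] (X : Complex2 V) (len : V → V → ℝ) (hs : SimplyConnected X) (hn : NPC X len)
    (ha : ActsIsometrically G X len)
    (hπ : ∀ s : Set V, IsSimplex X s → ∃ (Q : Type) (_ : Group Q) (π : G →* Q), P Q ∧
      ∀ g : G, (g • ·) '' s = s → π g = 1 → g = 1) : P G :=
  FJ3.P2s (closed hP) X len hs hn ⟨ha.edge, ha.tri, ha.len⟩ hπ

end Pool.Agent.helper34.Variants.CatZeroInheritance
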