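import Pool.Agent.helper34.FJ2.Main

set_option autoImplicit false

/-!
# Groups acting properly on 2-dimensional CAT(0) complexes are Farrell-Jones groups

A class of groups which is closed under directed colimits and contains the groups acting properly
and cocompactly on 2-dimensional CAT(0) simplicial complexes contains every group which acts with
finite vertex stabilisers on a 2-dimensional piecewise Euclidean simplicial complex which is simply
connected and satisfies the link condition. Neither the group nor the complex is assumed to be
countable, the complex need not be locally finite, and the action need not be cocompact.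

Outline of the proof. Let `G` be finitely generated, and let `A` run over the `G`-invariant
subcomplexes with finitely many orbits of cells in which a base vertex `x` is connected to all its
translates. In dimension two the link condition passes to subcomplexes and to coverings, so the
universal covering of the component of `x` in `A` is again a simply connected complex with the link
condition. The group of all lifts of elements of `G` to this covering (pairs of an element `g` and
a homotopy class in `A` of edge paths from `x` to `g x`) acts on it properly and cocompactly. Since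
`X` is simply connected, `G` is the directed colimit of these groups. A general group is the
directed union of its finitely generated subgroups.
-/

namespace Pool.Agent.helper34.Variants.ProperTwoComplexes

/-- A simplicial complex of dimension at most two with the vertex set `V`. -/
structure TwoComplex (V : Type) where
  /-- `edge a b`: the vertices `a` and `b` are the end points of an edge -/
  edge : V → V → Prop
  /-- `tri a b c`: the vertices `a`, `b`, `c` are the three vertices of a triangle -/
  tri : V → V → V → Prop
  edge_symm : ∀ a b, edge a b → edge b a
  edge_irrefl : ∀ a, ¬ edge a a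
  tri_rot : ∀ a b c, tri a b c → tri b c a
  tri_swap : ∀ a b c, tri a b c → tri b a c
  tri_edge : ∀ a b c, tri a b c → edge a b

variable {V : Type}

/-- the vertices `a, l₀, l₁, …` form an edge path -/
def IsPath (X : TwoComplex V) : V → List V → Prop
  | _, [] => True
  | a, b :: l => X.edge a b ∧ IsPath X b l

/-- the last vertex of the edge path `a, l₀, l₁, …` -/
def last : V → List V → V
  | a, [] => a
  | _, b :: l => last b l

/-- Homotopy of edge paths relative to their end points: the equivalence relation generated by
replacing `a, b, a` by `a` when `a b` is an edge, and `a, b, c` by `a, c` when `a b c` is a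
triangle, anywhere in the path. -/
inductive Homotopic (X : TwoComplex V) : V → List V → List V → Prop
  | refl (a : V) (l : List V) : Homotopic X a l l
  | symm (a : V) (l m : List V) : Homotopic X a l m → Homotopic X a m l
  | trans (a : V) (l m n : List V) :
      Homotopic X a l m → Homotopic X a m n → Homotopic X a l n
  | cons (a b : V) (l m : List V) : Homotopic X b l m → Homotopic X a (b :: l) (b :: m)
  | spur (a b : V) (l : List V) : X.edge a b → Homotopic X a (b :: a :: l) l
  | tri (a b c : V) (l : List V) : X.tri a b c → Homotopic X a (b :: c :: l) (c :: l)

/-- non-empty, connected, and every closed edge path is homotopic to the constant path -/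
def SimplyConnected (X : TwoComplex V) : Prop :=
  Nonempty V ∧ (∀ a b : V, ∃ l, IsPath X a l ∧ last a l = b) ∧
    ∀ (a : V) (l : List V), IsPath X a l → last a l = a → Homotopic X a l []

/-- the angle at `a` of the Euclidean triangle `a b c` with the side lengths given by `len` -/
noncomputable def corner (len : V → V → ℝ) (a b c : V) : ℝ :=
  Real.arccos ((len a b ^ 2 + len a c ^ 2 - len b c ^ 2) / (2 * len a b * len a c))

/-- `len` gives the edges positive lengths such that every triangle of `X` is realised by a
non-degenerate Euclidean triangle, and the link condition holds: every simple closed edge path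
`b₀, b₁, …, bₙ = b₀` in the link of a vertex `a` has total angle at least `2π`. -/
structure NonPositivelyCurved (X : TwoComplex V) (len : V → V → ℝ) : Prop where
  symm : ∀ a b, len a b = len b a
  pos : ∀ a b, X.edge a b → 0 < len a b
  triangle : ∀ a b c, X.tri a b c → len a c < len a b + len b c
  link : ∀ (a : V) (n : ℕ) (b : ℕ → V), 3 ≤ n → b n = b 0 →
    (∀ i j, i < n → j < n → b i = b j → i = j) → (∀ i, i < n → X.tri a (b i) (b (i + 1))) →
    2 * Real.pi ≤ ∑ i ∈ Finset.range n, corner len a (b i) (b (i + 1))

/-- the group `G` acts on `X` by automorphisms preserving the edge lengths, and the stabilisers of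
the vertices are finite -/
structure ActsProperly (G : Type) {V : Type} [Group G] [MulAction G V] (X : TwoComplex V)
    (len : V → V → ℝ) : Prop where
  edge : ∀ (g : G) (a b : V), X.edge a b → X.edge (g • a) (g • b)
  tri : ∀ (g : G) (a b c : V), X.tri a b c → X.tri (g • a) (g • b) (g • c)
  len : ∀ (g : G) (a b : V), X.edge a b → len (g • a) (g • b) = len a b
  stab : ∀ v : V, (MulAction.stabilizer G v : Set G).Finite

/-- finitely many orbits of simplices: there is a finite set of vertices such that every vertex,
every edge and every triangle has a translate whose vertices lie in the finite set -/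
def Cocompact (G : Type) {V : Type} [Group G] [MulAction G V] (X : TwoComplex V) : Prop :=
  ∃ F : Set V, F.Finite ∧ (∀ v, ∃ g : G, g • v ∈ F) ∧
    (∀ a b, X.edge a b → ∃ g : G, g • a ∈ F ∧ g • b ∈ F) ∧
    ∀ a b c, X.tri a b c → ∃ g : G, g • a ∈ F ∧ g • b ∈ F ∧ g • c ∈ F

/-- A class of (discrete) groups with two of the properties listed in the problem file for the
class of Farrell-Jones groups. -/
structure FJClosed (P : ∀ (G : Type) [Group G], Prop) : Prop where
  /-- it contains the groups acting properly and cocompactly on 2-dimensional CAT(0) simplicial
  complexes (simply connected, piecewise Euclidean, with the link condition) -/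
  catZero : ∀ (G V : Type) [Group G] [MulAction G V] (X : TwoComplex V) (len : V → V → ℝ),
    SimplyConnected X → NonPositivelyCurved X len → ActsProperly G X len → Cocompact G X → P G
  /-- directed colimits: `L` with the maps `φ i` is a colimit of the directed system `(G, f)` when
  the `φ i` are compatible with the `f i j`, jointly surjective, and an element of `G i` dies in
  `L` only if it dies in some `G j`. -/
  colim : ∀ (ι : Type) [Preorder ι] [Nonempty ι] [IsDirectedOrder ι]
    (G : ι → Type) [∀ i, Group (G i)] (f : ∀ i j, i ≤ j → G i →* G j)
    (L : Type) [Group L] (φ : ∀ i, G i →* L),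
    (∀ i x, f i i le_rfl x = x) →
    (∀ i j k (hij : i ≤ j) (hjk : j ≤ k) x, f j k hjk (f i j hij x) = f i k (hij.trans hjk) x) →
    (∀ i j (h : i ≤ j) x, φ j (f i j h x) = φ i x) →
    (∀ y : L, ∃ i x, φ i x = y) →
    (∀ i x, φ i x = 1 → ∃ j, ∃ h : i ≤ j, f i j h x = 1) →
    (∀ i, P (G i)) → P L

/-! ## Comparison with the library files -/

open Pool.Agent.helper34

/-- the same complex for the library files -/
def toLib (X : TwoComplex V) : FJ2.Complex2 V :=
  ⟨X.edge, X.tri, X.edge_symm, X.edge_irrefl, X.tri_rot, X.tri_swap, X.tri_edge⟩

/-- the inverse translation -/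
def ofLib (X : FJ2.Complex2 V) : TwoComplex V :=
  ⟨X.edge, X.tri, X.edge_symm, X.edge_irrefl, X.tri_rot, X.tri_swap, X.tri_edge⟩

theorem isPath_toLib (X : TwoComplex V) (a : V) (l : List V) :
    FJ2.IsPath (toLib X) a l ↔ IsPath X a l := by
  induction l generalizing a with
  | nil => exact Iff.rfl
  | cons b l ih => exact and_congr Iff.rfl (ih b)

theorem endp_eq (a : V) (l : List V) : FJ2.endp a l = last a l := by
  induction l generalizing a with
  | nil => rfl
  | cons b l ih => exact ih b

theorem htpy_toLib {X : TwoComplex V} {a : V} {l m : List V} (h : Homotopic X a l m) :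
    FJ2.Htpy (toLib X) a l m := by
  induction h with
  | refl => exact FJ2.Htpy.refl _ _
  | symm _ _ _ _ ih => exact ih.symm
  | trans _ _ _ _ _ _ ih1 ih2 => exact ih1.trans _ _ _ _ ih2
  | cons _ _ _ _ _ ih => exact FJ2.Htpy.cons _ _ _ _ ih
  | spur a b l h => exact FJ2.Htpy.spur _ _ _ h
  | tri a b c l h => exact FJ2.Htpy.tri _ _ _ _ h

theorem htpy_ofLib {X : FJ2.Complex2 V} {a : V} {l m : List V} (h : FJ2.Htpy X a l m) :
    Homotopic (ofLib X) a l m := by
  induction h with
  | refl => exact Homotopic.refl _ _
  | symm _ _ _ _ ih => exact ih.symm
  | trans _ _ _ _ _ _ ih1 ih2 => exact ih1.trans _ _ _ _ ih2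
  | cons _ _ _ _ _ ih => exact Homotopic.cons _ _ _ _ ih
  | spur a b l h => exact Homotopic.spur _ _ _ h
  | tri a b c l h => exact Homotopic.tri _ _ _ _ h

theorem simplyConnected_toLib {X : TwoComplex V} (h : SimplyConnected X) :
    FJ2.SimplyConnected (toLib X) := by
  refine ⟨h.1, fun a b => ?_, fun a l hl hl' => ?_⟩
  · obtain ⟨l, h1, h2⟩ := h.2.1 a b
    exact ⟨l, (isPath_toLib X a l).2 h1, by rwa [endp_eq]⟩
  · rw [endp_eq] at hl'
    exact htpy_toLib (h.2.2 a l ((isPath_toLib X a l).1 hl) hl')

theorem simplyConnected_ofLib {X : FJ2.Complex2 V} (h : FJ2.SimplyConnected X) :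
    SimplyConnected (ofLib X) := by
  refine ⟨h.1, fun a b => ?_, fun a l hl hl' => ?_⟩
  · obtain ⟨l, h1, h2⟩ := h.2.1 a b
    exact ⟨l, (isPath_toLib (ofLib X) a l).1 h1, by rwa [← endp_eq]⟩
  · rw [← endp_eq] at hl'
    exact htpy_ofLib (h.2.2 a l ((isPath_toLib (ofLib X) a l).2 hl) hl')

theorem closed2 {P : ∀ (G : Type) [Group G], Prop} (hP : FJClosed P) : FJ2.Closed2 P where
  cat G V _ _ X len h1 h2 h3 h4 :=
    hP.catZero G V (ofLib X) len (simplyConnected_ofLib h1)
      ⟨h2.symm, h2.pos, h2.triangle, h2.link⟩ ⟨h3.edge, h3.tri, h3.len, h3.stab⟩ h4
  colim := hP.colim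

/-- Let `P` be a class of groups which is closed under directed colimits and contains the groups
acting properly and cocompactly on 2-dimensional CAT(0) simplicial complexes (two of the known
properties of the class of Farrell-Jones groups). Let `G` be a group acting with finite vertex
stabilisers by automorphisms on a simply connected, piecewise Euclidean, 2-dimensional simplicial
complex which satisfies the link condition. Then `G` is in `P`. -/
theorem result (P : ∀ (G : Type) [Group G], Prop) (hP : FJClosed P)
    (G V : Type) [Group G] [MulAction G V] (X : TwoComplex V) (len : V → V → ℝ)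
    (hX : SimplyConnected X) (hlen : NonPositivelyCurved X len) (hG : ActsProperly G X len) :
    P G :=
  FJ2.closed_proper (closed2 hP) (toLib X) len (simplyConnected_toLib hX)
    ⟨hlen.symm, hlen.pos, hlen.triangle, hlen.link⟩ ⟨hG.edge, hG.tri, hG.len, hG.stab⟩

end Pool.Agent.helper34.Variants.ProperTwoComplexes
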