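import Pool.Agent.helper34.FJ3.PartC
import Pool.Agent.helper50.LT.GLdir

set_option autoImplicit false

/-!
# Two-dimensional Artin groups satisfy the Farrell-Jones conjecture

`FJClosed P` says that the class `P` of groups has inheritance properties which are known for the
class of Farrell-Jones groups. The theorem says that such a class contains all two-dimensional Artin
groups: arbitrary set of generators, `1/m_rs + 1/m_st + 1/m_rt ≤ 1` for all triples of generators.

Outline of the proof. The main step is a general theorem: if `G` acts on a simply connected
non-positively curved 2-complex `X` (isometrically, preserving types), and a homomorphism `π` from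
`G` to a group in `P` is injective on the vertex stabilisers, then `G` is in `P`. By the extension
property and colimits one can assume that the action is cocompact and that there is a homomorphism
`φ : G → ℤ` which is injective on all vertex stabilisers. For a suitable `m` replace `G` by
`φ⁻¹(m ℤ)`, and let `N` be the subgroup generated by all vertex stabilisers. The angles of rotation
are now so large that the quotient `X / N` is again simply connected and non-positively curved, and
`G / N` acts freely on it. A combinatorial version of the gradient flow of the distance from a point
of the CAT(0) space `X / N` shows that every finite subcomplex of `X / N` collapses to a graph in a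
way which lifts to `X`, so that `N` is a colimit of groups acting on trees with stabilisers mapped
injectively to `ℤ`. Such groups act properly on the product of a tree and a line. The extension
property for `G → G / N × ℤ` gives the theorem. It is applied to the modified Deligne complex of the
Artin group, the homomorphism is an explicit linear representation over a number field which is
faithful on the dihedral parabolic subgroups. The link condition follows from the theorem of Appel
and Schupp on alternating words in dihedral Artin groups, which is proved by a ping-pong argument.
-/

namespace Pool.Agent.Results.MP_490288_al.TwoDimArtin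

open Pool.Agent.helper34 Matrix
open Pool.Agent.helper34.FJ2 (Complex2 SimplyConnected NPC ActsProperly Cocompact)

/-- A class of (discrete) groups with known properties of the class of Farrell-Jones groups: it
contains the abelian groups, the arithmetic groups `GL_n(ℤ[1/N])` and the groups acting properly
and cocompactly on 2-dimensional CAT(0) simplicial complexes, it is closed under subgroups,
overgroups of finite index, direct products of two groups and colimits of directed systems with
arbitrary structure maps, and it has the extension property. -/
structure FJClosed (P : ∀ (G : Type) [Group G], Prop) : Prop where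
  /-- abelian groups -/
  abelian : ∀ (G : Type) [CommGroup G], P G
  /-- the `S`-arithmetic groups `GL_n(ℤ[1/N])` -/
  arithmetic : ∀ n N : ℕ, N ≠ 0 → P (GL (Fin n) (Localization.Away (N : ℤ)))
  /-- groups acting properly and cocompactly on 2-dimensional CAT(0) simplicial complexes: simply
  connected, piecewise Euclidean, with the link condition -/
  catZero : ∀ (G V : Type) [Group G] [MulAction G V] (X : Complex2 V) (len : V → V → ℝ),
    SimplyConnected X → NPC X len → ActsProperly G X len → Cocompact G X → P G
  /-- subgroups -/
  subgroup : ∀ (G : Type) [Group G], P G → ∀ H : Subgroup G, P H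
  /-- overgroups of finite index -/
  overgroup : ∀ (G : Type) [Group G] (H : Subgroup G), H.FiniteIndex → P H → P G
  /-- direct products -/
  product : ∀ (G H : Type) [Group G] [Group H], P G → P H → P (G × H)
  /-- directed colimits: `L` with the maps `φ i` is a colimit of the directed system `(G, f)` when
  the `φ i` are compatible with the `f i j`, jointly surjective, and an element of `G i` dies in
  `L` only if it dies in some `G j`. -/
  colim : ∀ (ι : Type) [Preorder ι] [Nonempty ι] [IsDirectedOrder ι]
    (G : ι → Type) [∀ i, Group (G i)] (f : ∀ i j, i ≤ j → G i →* G j)
    (L : Type) [Group L] (φ : ∀ i, G i →* L),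
    (∀ i x, f i i le_rfl x = x) →
    (∀ i j k (hij : i ≤ j) (hjk : j ≤ k) x, f j k hjk (f i j hij x) = f i k (hij.trans hjk) x) →
    (∀ i j (h : i ≤ j) x, φ j (f i j h x) = φ i x) →
    (∀ y : L, ∃ i x, φ i x = y) →
    (∀ i x, φ i x = 1 → ∃ j, ∃ h : i ≤ j, f i j h x = 1) →
    (∀ i, P (G i)) → P L
  /-- the extension property: if `Q` and the preimages of all virtually cyclic subgroups of `Q`
  are in the class, then the source of the homomorphism is in the class -/
  extension : ∀ (G Q : Type) [Group G] [Group Q] (f : G →* Q), P Q →
    (∀ C : Subgroup Q, (∃ Z : Subgroup C, Z.FiniteIndex ∧ IsCyclic Z) → P (C.comap f)) → P G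

/-- the alternating product `a b a b …` with `n` factors -/
def alternating {G : Type} [Group G] (a b : G) : ℕ → G
  | 0 => 1
  | n + 1 => a * alternating b a n

/-- The Artin group of a Coxeter matrix `M`: the generators are the elements of `S`, and the
relations say that the alternating products `s t s …` and `t s t …` with `M s t` factors are equal
(no relation if `M s t = 0`, which stands for `∞`). -/
def ArtinGroup {S : Type} (M : CoxeterMatrix S) : Type :=
  PresentedGroup {x : FreeGroup S | ∃ s t : S,
    x = alternating (FreeGroup.of s) (FreeGroup.of t) (M s t) *
      (alternating (FreeGroup.of t) (FreeGroup.of s) (M s t))⁻¹}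

instance {S : Type} (M : CoxeterMatrix S) : Group (ArtinGroup M) :=
  inferInstanceAs (Group (PresentedGroup _))

/-- The Artin group is two-dimensional: `1/m_rs + 1/m_st + 1/m_rt ≤ 1` for three different
generators with finite labels (`M s t = 0` stands for `m_st = ∞`). -/
def TwoDimensional {S : Type} (M : CoxeterMatrix S) : Prop :=
  ∀ r s t : S, r ≠ s → s ≠ t → r ≠ t → M r s ≠ 0 → M s t ≠ 0 → M r t ≠ 0 →
    (1 : ℚ) / (M r s : ℚ) + 1 / (M s t : ℚ) + 1 / (M r t : ℚ) ≤ 1

theorem alt_eq {G : Type} [Group G] (a b : G) (n : ℕ) :
    alternating a b n = helper36.LT.alt a b n := by
  induction n generalizing a b with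
  | zero => rfl
  | succ n ih =>
    show a * alternating b a n = a * helper36.LT.alt b a n
    rw [ih]

theorem closedLT {P : ∀ (G : Type) [Group G], Prop} (hP : FJClosed P) : helper36.LT.Closed P where
  cat := hP.catZero
  colim := hP.colim
  comm := hP.abelian
  subgroup := hP.subgroup
  overgroup := hP.overgroup
  extension := hP.extension

theorem closed {P : ∀ (G : Type) [Group G], Prop} (hP : FJClosed P) : FJ3.Closed P where
  cat := hP.catZero
  colim := hP.colim
  sub := fun G _ H h => hP.subgroup G h H
  finIndex := fun G _ H hH h => hP.overgroup G H ⟨hH⟩ h
  prod := hP.product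
  ext := by
    intro G Q _ _ ψ h hQ
    refine hP.extension G Q ψ hQ ?_
    rintro C ⟨Z, hZ, hc⟩
    obtain ⟨x, hx⟩ := hc.exists_generator
    refine h C ⟨((x : Z) : C), (x : C).2, ?_⟩
    have h1 : (Subgroup.zpowers (((x : Z) : C) : Q)).subgroupOf C = Z := by
      ext y
      rw [Subgroup.mem_subgroupOf]
      constructor
      · rintro ⟨j, hj⟩
        have h2 : y = ((x ^ j : Z) : C) := Subtype.ext (by simpa using hj.symm)
        rw [h2]
        exact (x ^ j).2
      · intro hy
        obtain ⟨j, hj⟩ := hx ⟨y, hy⟩
        refine ⟨j, ?_⟩
        have h2 := congrArg (fun z : Z => ((z : C) : Q)) hj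
        simpa using h2
    change ((Subgroup.zpowers (((x : Z) : C) : Q)).subgroupOf C).index ≠ 0
    rw [h1]
    exact hZ.index_ne_zero

/-- Let `P` be a class of groups with the properties `FJClosed` of the class of Farrell-Jones
groups. Then `P` contains every two-dimensional Artin group, on an arbitrary set of generators. -/
theorem result (P : ∀ (G : Type) [Group G], Prop) (hP : FJClosed P) (S : Type)
    (M : CoxeterMatrix S) (hM : TwoDimensional M) : P (ArtinGroup M) := by
  have h4 := FJ3.artin_P (closed hP)
    (fun n => helper50.LT.gl_numberField_of_arith (closedLT hP) hP.arithmetic (Fin n) ℚ) S M hM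
  have h5 : {x : FreeGroup S | ∃ s t : S,
      x = alternating (FreeGroup.of s) (FreeGroup.of t) (M s t) *
        (alternating (FreeGroup.of t) (FreeGroup.of s) (M s t))⁻¹} = helper36.LT.artinRels M := by
    ext x
    constructor
    · rintro ⟨s, t, rfl⟩
      exact ⟨(s, t), by rw [alt_eq, alt_eq]⟩
    · rintro ⟨⟨s, t⟩, rfl⟩
      exact ⟨s, t, by rw [alt_eq, alt_eq]⟩
  have h6 : ∀ (R R' : Set (FreeGroup S)), R = R' → P (PresentedGroup R') → P (PresentedGroup R) := by
    rintro R R' rfl h
    exact h
  exact h6 _ _ h5 h4

end Pool.Agent.Results.MP_490288_al.TwoDimArtin
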